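import Mathlib

/-!
# Nearly Gorenstein numerical semigroups of embedding dimension four (MP_8e9e7d_al)

The numerical semigroup `⟨6, 7, 8, 9⟩` is nearly Gorenstein of embedding dimension four, it is not
almost symmetric, and its defining ideal is generated by the four binomials
`ac - b²`, `ad - bc`, `bd - c²`, `d² - a³` (variables `a, b, c, d` of degrees `6, 7, 8, 9`).
So the number of relations can be at most four.
-/

set_option autoImplicit false

namespace Pool.Agent.Results.MP_8e9e7d_al.FourRelations

open MvPolynomial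

/-- A numerical semigroup: a submonoid of `ℕ` with finite complement. -/
def IsNumericalSemigroup (Γ : AddSubmonoid ℕ) : Prop :=
  {n : ℕ | n ∉ Γ}.Finite

/-- The minimal generators: nonzero elements that are not a sum of two nonzero elements. -/
def minGens (Γ : AddSubmonoid ℕ) : Set ℕ :=
  {x | x ∈ Γ ∧ x ≠ 0 ∧ ∀ y ∈ Γ, ∀ z ∈ Γ, y + z = x → y = 0 ∨ z = 0}

/-- An integer belongs to `Γ`. -/
def Mem (Γ : AddSubmonoid ℕ) (x : ℤ) : Prop :=
  ∃ n ∈ Γ, (n : ℤ) = x

/-- The pseudo-Frobenius numbers. -/
def PF (Γ : AddSubmonoid ℕ) : Set ℤ :=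
  {x | ¬ Mem Γ x ∧ ∀ s ∈ Γ, s ≠ 0 → Mem Γ (x + s)}

/-- `F` is the Frobenius number, the largest integer outside `Γ`. -/
def IsFrobenius (Γ : AddSubmonoid ℕ) (F : ℤ) : Prop :=
  ¬ Mem Γ F ∧ ∀ x : ℤ, F < x → Mem Γ x

/-- Almost symmetric numerical semigroups. -/
def IsAlmostSymmetric (Γ : AddSubmonoid ℕ) : Prop :=
  ∃ F, IsFrobenius Γ F ∧
    ∀ x : ℤ, ¬ Mem Γ x → Mem Γ (F - x) ∨ (x ∈ PF Γ ∧ F - x ∈ PF Γ)

/-- Nearly Gorenstein numerical semigroups. -/
def IsNearlyGorenstein (Γ : AddSubmonoid ℕ) : Prop :=
  ∀ g ∈ minGens Γ, ∃ p ∈ PF Γ, ∀ q ∈ PF Γ, Mem Γ (g + p - q)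

/-- The parametrisation `k[x_g : g a minimal generator] → k[t]`, `x_g ↦ t ^ g`. -/
noncomputable def param (k : Type) [Field k] (Γ : AddSubmonoid ℕ) :
    MvPolynomial (minGens Γ) k →ₐ[k] Polynomial k :=
  aeval (fun g : minGens Γ => (Polynomial.X : Polynomial k) ^ (g : ℕ))

/-- The defining ideal of the semigroup ring. -/
noncomputable def toricIdeal (k : Type) [Field k] (Γ : AddSubmonoid ℕ) :
    Ideal (MvPolynomial (minGens Γ) k) :=
  RingHom.ker (param k Γ)

/-- The minimal number of homogeneous generators (`deg x_g = g`) of the defining ideal. -/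
noncomputable def rho (k : Type) [Field k] (Γ : AddSubmonoid ℕ) : ℕ :=
  sInf {n : ℕ | ∃ s : Finset (MvPolynomial (minGens Γ) k), s.card = n ∧
    (∀ f ∈ s, ∃ d : ℕ, IsWeightedHomogeneous (fun g : minGens Γ => (g : ℕ)) f d) ∧
    Ideal.span (s : Set (MvPolynomial (minGens Γ) k)) = toricIdeal k Γ}

/-- The semigroup `⟨6, 7, 8, 9⟩ = {0, 6, 7, 8, 9, 12, 13, …}`. -/
def S : AddSubmonoid ℕ where
  carrier := {n | n = 0 ∨ (6 ≤ n ∧ n ≤ 9) ∨ 12 ≤ n}
  zero_mem' := Or.inl rfl
  add_mem' := by
    intro a b ha hb
    simp only [Set.mem_ofPred_eq] at ha hb ⊢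
    omega

theorem mem_S (n : ℕ) : n ∈ S ↔ n = 0 ∨ (6 ≤ n ∧ n ≤ 9) ∨ 12 ≤ n := Iff.rfl

theorem Mem_S (x : ℤ) : Mem S x ↔ x = 0 ∨ (6 ≤ x ∧ x ≤ 9) ∨ 12 ≤ x := by
  unfold Mem
  constructor
  · rintro ⟨n, hn, rfl⟩
    rw [mem_S] at hn
    omega
  · intro h
    refine ⟨x.toNat, ?_, ?_⟩
    · rw [mem_S]; omega
    · omega

theorem minGens_S : minGens S = {6, 7, 8, 9} := by
  ext x
  simp only [minGens, Set.mem_ofPred_eq, Set.mem_insert_iff, Set.mem_singleton_iff, mem_S]
  constructor
  · rintro ⟨h1, h2, h3⟩
    by_contra hno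
    have h4 : 12 ≤ x := by omega
    by_cases h5 : x = 16
    · have := h3 8 (by omega) 8 (by omega) (by omega)
      omega
    · by_cases h6 : x = 17
      · have := h3 8 (by omega) 9 (by omega) (by omega)
        omega
      · have := h3 6 (by omega) (x - 6) (by omega) (by omega)
        omega
  · intro h
    refine ⟨by omega, by omega, ?_⟩
    intro y hy z hz hyz
    omega

theorem PF_S (x : ℤ) : x ∈ PF S ↔ x = 10 ∨ x = 11 := by
  simp only [PF, Set.mem_ofPred_eq, Mem_S, mem_S]
  constructor
  · rintro ⟨h1, h2⟩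
    have e6 := h2 6 (by omega) (by omega)
    have e7 := h2 7 (by omega) (by omega)
    have e8 := h2 8 (by omega) (by omega)
    have e9 := h2 9 (by omega) (by omega)
    push_cast at e6 e7 e8 e9
    omega
  · intro h
    refine ⟨by omega, ?_⟩
    intro s hs hs0
    omega

section Ideal

variable (k : Type) [Field k]

/-- The variable of degree 6. -/
noncomputable def va : MvPolynomial (minGens S) k := X ⟨6, by rw [minGens_S]; simp⟩
/-- The variable of degree 7. -/
noncomputable def vb : MvPolynomial (minGens S) k := X ⟨7, by rw [minGens_S]; simp⟩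
/-- The variable of degree 8. -/
noncomputable def vc : MvPolynomial (minGens S) k := X ⟨8, by rw [minGens_S]; simp⟩
/-- The variable of degree 9. -/
noncomputable def vd : MvPolynomial (minGens S) k := X ⟨9, by rw [minGens_S]; simp⟩

open Classical in
/-- The four binomials. -/
noncomputable def gens : Finset (MvPolynomial (minGens S) k) :=
  {va k * vc k - vb k ^ 2, va k * vd k - vb k * vc k, vb k * vd k - vc k ^ 2,
    vd k ^ 2 - va k ^ 3}

/-- The ideal generated by the four binomials. -/
noncomputable def J : Ideal (MvPolynomial (minGens S) k) :=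
  Ideal.span (gens k : Set (MvPolynomial (minGens S) k))

theorem gens_mem {f : MvPolynomial (minGens S) k} : f ∈ gens k ↔
    f = va k * vc k - vb k ^ 2 ∨ f = va k * vd k - vb k * vc k ∨ f = vb k * vd k - vc k ^ 2 ∨
      f = vd k ^ 2 - va k ^ 3 := by
  classical
  unfold gens
  simp only [Finset.mem_insert, Finset.mem_singleton]

theorem param_va : param k S (va k) = Polynomial.X ^ 6 := by simp [param, va]
theorem param_vb : param k S (vb k) = Polynomial.X ^ 7 := by simp [param, vb]
theorem param_vc : param k S (vc k) = Polynomial.X ^ 8 := by simp [param, vc]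
theorem param_vd : param k S (vd k) = Polynomial.X ^ 9 := by simp [param, vd]

theorem J_le : J k ≤ toricIdeal k S := by
  unfold J
  rw [Ideal.span_le]
  intro f hf
  rw [Finset.mem_coe, gens_mem] at hf
  show f ∈ toricIdeal k S
  unfold toricIdeal
  rw [RingHom.mem_ker]
  show param k S f = 0
  rcases hf with rfl | rfl | rfl | rfl <;>
    simp only [map_sub, map_mul, map_pow, param_va, param_vb, param_vc, param_vd] <;> ring

/-- The quotient map. -/
noncomputable def mk : MvPolynomial (minGens S) k →ₐ[k] (MvPolynomial (minGens S) k ⧸ J k) :=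
  Ideal.Quotient.mkₐ k (J k)

theorem mk_zero {f : MvPolynomial (minGens S) k} (hf : f ∈ gens k) : mk k f = 0 := by
  have : f ∈ J k := Ideal.subset_span hf
  exact Ideal.Quotient.eq_zero_iff_mem.2 this

theorem rel1 : mk k (vb k) ^ 2 = mk k (va k) * mk k (vc k) := by
  have h := mk_zero k ((gens_mem k).2 (Or.inl rfl))
  rw [map_sub, map_mul, map_pow, sub_eq_zero] at h
  exact h.symm

theorem rel2 : mk k (vb k) * mk k (vc k) = mk k (va k) * mk k (vd k) := by
  have h := mk_zero k ((gens_mem k).2 (Or.inr (Or.inl rfl)))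
  rw [map_sub, map_mul, map_mul, sub_eq_zero] at h
  exact h.symm

theorem rel3 : mk k (vc k) ^ 2 = mk k (vb k) * mk k (vd k) := by
  have h := mk_zero k ((gens_mem k).2 (Or.inr (Or.inr (Or.inl rfl))))
  rw [map_sub, map_mul, map_pow, sub_eq_zero] at h
  exact h.symm

theorem rel4 : mk k (vd k) ^ 2 = mk k (va k) ^ 3 := by
  have h := mk_zero k ((gens_mem k).2 (Or.inr (Or.inr (Or.inr rfl))))
  rw [map_sub, map_pow, map_pow, sub_eq_zero] at h
  exact h

/-- The normal forms. -/
noncomputable def W : ℕ → (MvPolynomial (minGens S) k ⧸ J k)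
  | 0 => 1
  | 1 => mk k (vb k)
  | 2 => mk k (vc k)
  | 3 => mk k (vd k)
  | 4 => mk k (vb k) * mk k (vd k)
  | _ => mk k (vc k) * mk k (vd k)

/-- Their degrees. -/
def v : ℕ → ℕ
  | 0 => 0
  | 1 => 7
  | 2 => 8
  | 3 => 9
  | 4 => 16
  | _ => 17

/-- The normal form in degree `n`. -/
noncomputable def NF (n : ℕ) : MvPolynomial (minGens S) k ⧸ J k :=
  mk k (va k) ^ ((n - v (n % 6)) / 6) * W k (n % 6)

theorem NF_eq (q r : ℕ) (hr : r < 6) : NF k (6 * q + v r) = mk k (va k) ^ q * W k r := by
  unfold NF
  have h1 : (6 * q + v r) % 6 = r := by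
    interval_cases r <;> simp [v] <;> omega
  rw [h1]
  have h2 : (6 * q + v r - v r) / 6 = q := by omega
  rw [h2]

/-- The linear section on `k[t]`. -/
noncomputable def psi : Polynomial k →ₗ[k] (MvPolynomial (minGens S) k ⧸ J k) :=
  (Polynomial.basisMonomials k).constr k (NF k)

theorem psi_X (n : ℕ) : psi k (Polynomial.X ^ n) = NF k n := by
  have h := (Polynomial.basisMonomials k).constr_basis k (NF k) n
  rw [Polynomial.coe_basisMonomials] at h
  rw [← Polynomial.monomial_one_right_eq_X_pow]
  exact h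

/-- Every monomial is a multiple of a normal form of the same degree. -/
theorem monomial_nf (s : minGens S →₀ ℕ) (c : k) :
    ∃ (c' : k) (q r : ℕ), r < 6 ∧ mk k (monomial s c) = c' • (mk k (va k) ^ q * W k r) ∧
      param k S (monomial s c) = c' • Polynomial.X ^ (6 * q + v r) := by
  have r1 := rel1 k
  have r2 := rel2 k
  have r3 := rel3 k
  have r4 := rel4 k
  refine MvPolynomial.induction_on_monomial
    (motive := fun p => ∃ (c' : k) (q r : ℕ), r < 6 ∧ mk k p = c' • (mk k (va k) ^ q * W k r) ∧
      param k S p = c' • Polynomial.X ^ (6 * q + v r)) ?_ ?_ s c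
  · intro a
    refine ⟨a, 0, 0, by norm_num, ?_, ?_⟩
    · rw [← MvPolynomial.algebraMap_eq, AlgHom.commutes, Algebra.algebraMap_eq_smul_one]
      simp [W]
    · rw [← MvPolynomial.algebraMap_eq, AlgHom.commutes, Algebra.algebraMap_eq_smul_one]
      simp [v]
  · rintro p ⟨g, hg⟩ ⟨c', q, r, hr, h1, h2⟩
    have hg' : g = 6 ∨ g = 7 ∨ g = 8 ∨ g = 9 := by
      have := hg
      rw [minGens_S] at this
      simpa using this
    rcases hg' with rfl | rfl | rfl | rfl
    · refine ⟨c', q + 1, r, hr, ?_, ?_⟩
      · rw [map_mul, h1]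
        show c' • (mk k (va k) ^ q * W k r) * mk k (va k) = _
        rw [smul_mul_assoc]
        congr 1
        ring
      · rw [map_mul, h2]
        show c' • Polynomial.X ^ (6 * q + v r) * param k S (va k) = _
        rw [param_va, smul_mul_assoc, ← pow_add]
        congr 2
        ring
    · obtain ⟨q', r', hr', hd, hw⟩ : ∃ q' r', r' < 6 ∧ 6 * q + v r + 7 = 6 * q' + v r' ∧
          mk k (va k) ^ q * W k r * mk k (vb k) = mk k (va k) ^ q' * W k r' := by
        interval_cases r
        · exact ⟨q, 1, by norm_num, by simp only [v] <;> omega, by simp only [W]; ring⟩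
        · exact ⟨q + 1, 2, by norm_num, by simp only [v] <;> omega, by
            simp only [W]; linear_combination (mk k (va k) ^ q) * r1⟩
        · exact ⟨q + 1, 3, by norm_num, by simp only [v] <;> omega, by
            simp only [W]; linear_combination (mk k (va k) ^ q) * r2⟩
        · exact ⟨q, 4, by norm_num, by simp only [v] <;> omega, by simp only [W]; ring⟩
        · exact ⟨q + 1, 5, by norm_num, by simp only [v] <;> omega, by
            simp only [W]; linear_combination (mk k (va k) ^ q * mk k (vd k)) * r1⟩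
        · exact ⟨q + 4, 0, by norm_num, by simp only [v] <;> omega, by
            simp only [W]
            linear_combination (mk k (va k) ^ q * mk k (vd k)) * r2 + mk k (va k) ^ (q + 1) * r4⟩
      refine ⟨c', q', r', hr', ?_, ?_⟩
      · rw [map_mul, h1]
        show c' • (mk k (va k) ^ q * W k r) * mk k (vb k) = _
        rw [smul_mul_assoc, hw]
      · rw [map_mul, h2]
        show c' • Polynomial.X ^ (6 * q + v r) * param k S (vb k) = _
        rw [param_vb, smul_mul_assoc, ← pow_add, hd]
    · obtain ⟨q', r', hr', hd, hw⟩ : ∃ q' r', r' < 6 ∧ 6 * q + v r + 8 = 6 * q' + v r' ∧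
          mk k (va k) ^ q * W k r * mk k (vc k) = mk k (va k) ^ q' * W k r' := by
        interval_cases r
        · exact ⟨q, 2, by norm_num, by simp only [v] <;> omega, by simp only [W]; ring⟩
        · exact ⟨q + 1, 3, by norm_num, by simp only [v] <;> omega, by
            simp only [W]; linear_combination (mk k (va k) ^ q) * r2⟩
        · exact ⟨q, 4, by norm_num, by simp only [v] <;> omega, by
            simp only [W]; linear_combination (mk k (va k) ^ q) * r3⟩
        · exact ⟨q, 5, by norm_num, by simp only [v] <;> omega, by simp only [W]; ring⟩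
        · exact ⟨q + 4, 0, by norm_num, by simp only [v] <;> omega, by
            simp only [W]
            linear_combination (mk k (va k) ^ q * mk k (vd k)) * r2 + mk k (va k) ^ (q + 1) * r4⟩
        · exact ⟨q + 3, 1, by norm_num, by simp only [v] <;> omega, by
            simp only [W]
            linear_combination (mk k (va k) ^ q * mk k (vd k)) * r3 +
              mk k (va k) ^ q * mk k (vb k) * r4⟩
      refine ⟨c', q', r', hr', ?_, ?_⟩
      · rw [map_mul, h1]
        show c' • (mk k (va k) ^ q * W k r) * mk k (vc k) = _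
        rw [smul_mul_assoc, hw]
      · rw [map_mul, h2]
        show c' • Polynomial.X ^ (6 * q + v r) * param k S (vc k) = _
        rw [param_vc, smul_mul_assoc, ← pow_add, hd]
    · obtain ⟨q', r', hr', hd, hw⟩ : ∃ q' r', r' < 6 ∧ 6 * q + v r + 9 = 6 * q' + v r' ∧
          mk k (va k) ^ q * W k r * mk k (vd k) = mk k (va k) ^ q' * W k r' := by
        interval_cases r
        · exact ⟨q, 3, by norm_num, by simp only [v] <;> omega, by simp only [W]; ring⟩
        · exact ⟨q, 4, by norm_num, by simp only [v] <;> omega, by simp only [W]; ring⟩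
        · exact ⟨q, 5, by norm_num, by simp only [v] <;> omega, by simp only [W]; ring⟩
        · exact ⟨q + 3, 0, by norm_num, by simp only [v] <;> omega, by
            simp only [W]; linear_combination (mk k (va k) ^ q) * r4⟩
        · exact ⟨q + 3, 1, by norm_num, by simp only [v] <;> omega, by
            simp only [W]; linear_combination (mk k (va k) ^ q * mk k (vb k)) * r4⟩
        · exact ⟨q + 3, 2, by norm_num, by simp only [v] <;> omega, by
            simp only [W]; linear_combination (mk k (va k) ^ q * mk k (vc k)) * r4⟩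
      refine ⟨c', q', r', hr', ?_, ?_⟩
      · rw [map_mul, h1]
        show c' • (mk k (va k) ^ q * W k r) * mk k (vd k) = _
        rw [smul_mul_assoc, hw]
      · rw [map_mul, h2]
        show c' • Polynomial.X ^ (6 * q + v r) * param k S (vd k) = _
        rw [param_vd, smul_mul_assoc, ← pow_add, hd]

theorem section_eq (f : MvPolynomial (minGens S) k) : mk k f = psi k (param k S f) := by
  induction f using MvPolynomial.induction_on' with
  | monomial s a =>
    obtain ⟨c', q, r, hr, h1, h2⟩ := monomial_nf k s a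
    rw [h1, h2, map_smul, psi_X, NF_eq k q r hr]
  | add f g ih1 ih2 =>
    rw [map_add, map_add, map_add, ih1, ih2]

theorem toric_eq : Ideal.span (gens k : Set (MvPolynomial (minGens S) k)) = toricIdeal k S := by
  apply le_antisymm (J_le k)
  intro f hf
  unfold toricIdeal at hf
  rw [RingHom.mem_ker] at hf
  have h1 : param k S f = 0 := hf
  have h2 := section_eq k f
  rw [h1, map_zero] at h2
  exact Ideal.Quotient.eq_zero_iff_mem.1 h2

theorem whX (n : ℕ) (hn : n ∈ minGens S) :
    IsWeightedHomogeneous (fun g : minGens S => (g : ℕ))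
      (X ⟨n, hn⟩ : MvPolynomial (minGens S) k) n :=
  isWeightedHomogeneous_X k _ _

theorem wh_sub {f g : MvPolynomial (minGens S) k} {d : ℕ}
    (hf : IsWeightedHomogeneous (fun g : minGens S => (g : ℕ)) f d)
    (hg : IsWeightedHomogeneous (fun g : minGens S => (g : ℕ)) g d) :
    IsWeightedHomogeneous (fun g : minGens S => (g : ℕ)) (f - g) d :=
  (weightedHomogeneousSubmodule k (fun g : minGens S => (g : ℕ)) d).sub_mem hf hg

theorem gens_wh (f : MvPolynomial (minGens S) k) (hf : f ∈ gens k) :
    ∃ d : ℕ, IsWeightedHomogeneous (fun g : minGens S => (g : ℕ)) f d := by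
  have ha : IsWeightedHomogeneous (fun g : minGens S => (g : ℕ)) (va k) 6 := whX k 6 _
  have hb : IsWeightedHomogeneous (fun g : minGens S => (g : ℕ)) (vb k) 7 := whX k 7 _
  have hc : IsWeightedHomogeneous (fun g : minGens S => (g : ℕ)) (vc k) 8 := whX k 8 _
  have hd : IsWeightedHomogeneous (fun g : minGens S => (g : ℕ)) (vd k) 9 := whX k 9 _
  rcases (gens_mem k).1 hf with rfl | rfl | rfl | rfl
  · exact ⟨14, wh_sub k (ha.mul hc) (by simpa using hb.pow 2)⟩
  · exact ⟨15, wh_sub k (ha.mul hd) (hb.mul hc)⟩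
  · exact ⟨16, wh_sub k (hb.mul hd) (by simpa using hc.pow 2)⟩
  · exact ⟨18, wh_sub k (by simpa using hd.pow 2) (by simpa using ha.pow 3)⟩

theorem rho_le : rho k S ≤ 4 := by
  classical
  have h1 : rho k S ≤ (gens k).card :=
    Nat.sInf_le ⟨gens k, rfl, gens_wh k, toric_eq k⟩
  refine h1.trans ?_
  unfold gens
  convert Finset.card_le_four

end Ideal

/-- There is a nearly Gorenstein, not almost symmetric numerical semigroup of embedding dimension
four whose number of relations is neither `5` nor `6` (over any field); it is at most `4`. -/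
theorem result : ∃ Γ : AddSubmonoid ℕ, IsNumericalSemigroup Γ ∧ (minGens Γ).ncard = 4 ∧
    IsNearlyGorenstein Γ ∧ ¬ IsAlmostSymmetric Γ ∧
    ∀ (k : Type) [Field k], rho k Γ ≤ 4 ∧ rho k Γ ∉ ({5, 6} : Set ℕ) := by
  refine ⟨S, ?_, ?_, ?_, ?_, ?_⟩
  · unfold IsNumericalSemigroup
    apply (Set.finite_lt_nat 12).subset
    intro n hn
    rw [Set.mem_ofPred_eq, mem_S] at hn
    show n < 12
    omega
  · rw [minGens_S, Set.ncard_eq_toFinset_card']
    rfl
  · intro g hg
    rw [minGens_S] at hg
    simp only [Set.mem_insert_iff, Set.mem_singleton_iff] at hg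
    rcases hg with rfl | rfl | rfl | rfl
    · refine ⟨11, (PF_S 11).2 (by omega), fun q hq => ?_⟩
      rw [PF_S] at hq
      rw [Mem_S]
      push_cast
      omega
    · refine ⟨11, (PF_S 11).2 (by omega), fun q hq => ?_⟩
      rw [PF_S] at hq
      rw [Mem_S]
      push_cast
      omega
    · refine ⟨11, (PF_S 11).2 (by omega), fun q hq => ?_⟩
      rw [PF_S] at hq
      rw [Mem_S]
      push_cast
      omega
    · refine ⟨10, (PF_S 10).2 (by omega), fun q hq => ?_⟩
      rw [PF_S] at hq
      rw [Mem_S]
      push_cast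
      omega
  · rintro ⟨F, ⟨hF1, hF2⟩, h⟩
    have hF : F = 11 := by
      have e1 : ¬ (F < 11) := by
        intro hlt
        have := hF2 11 hlt
        rw [Mem_S] at this
        omega
      rw [Mem_S] at hF1
      omega
    rw [hF] at h
    rcases h 10 (by rw [Mem_S]; omega) with h' | h'
    · rw [Mem_S] at h'
      omega
    · have := (PF_S _).1 h'.2
      omega
  · intro k _
    have h := rho_le k
    refine ⟨h, ?_⟩
    intro hmem
    simp only [Set.mem_insert_iff, Set.mem_singleton_iff] at hmem
    omega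

end Pool.Agent.Results.MP_8e9e7d_al.FourRelations
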